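import Pool.Agent.W348.RG.Main
import Pool.Agent.W348.RG.FinDefs

/-!
# Residual finiteness growth and complex Mal'cev completions

For every nontrivial finitely generated torsion-free nilpotent group the residual finiteness
growth is equivalent to the `k`-th power of the logarithm, where `k` is the least number such that
the ideals of codimension at most `k` of the complexified Mal'cev Lie algebra intersect in zero.
So groups with isomorphic complex Mal'cev completions have equivalent residual finiteness growth.
-/

set_option autoImplicit false

open TensorProduct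

namespace Pool.Agent.Results.MP_67ef3c_al.ComplexMalcevDeterminesRF

open Pool.Agent.W348.RG

attribute [local instance 100] LieRing.ofAssociativeRing

/-- Groups whose complexified rational Mal'cev Lie algebras are isomorphic have the same residual
finiteness growth, which is a power of the logarithm. The first two clauses say that every
finitely generated torsion-free nilpotent group has a faithful unitriangular representation, and
that `malcev r` is the rational Mal'cev Lie algebra. -/
theorem result :
    (∀ (G : Type) [Group G] [Group.IsNilpotent G] [Group.FG G],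
      (∀ x : G, ∀ n : ℕ, 0 < n → x ^ n = 1 → x = 1) → Nonempty (UniRep G)) ∧
    (∀ (G : Type) [Group G] (r : UniRep G), HullC r) ∧
    (∀ (G : Type) [Group G] [Nontrivial G] (r : UniRep G) (S : Finset G), Gen S →
      LogPow (RF (S : Set G)) (kc r)) ∧
    (∀ (G₁ G₂ : Type) [Group G₁] [Group G₂] (r₁ : UniRep G₁) (r₂ : UniRep G₂)
      (S₁ : Finset G₁) (S₂ : Finset G₂), Gen S₁ → Gen S₂ → SameC r₁ r₂ →
      Dom (RF (S₁ : Set G₁)) (RF (S₂ : Set G₂)) ∧
      Dom (RF (S₂ : Set G₂)) (RF (S₁ : Set G₁))) := by
  refine ⟨jen, ?_, all_bnd iso, all_cmp iso⟩
  intro G _ r x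
  refine ⟨all_mal iso G r x, ?_⟩
  rintro ⟨n, hn, g, h⟩
  have h1 : x = ((n : ℚ)⁻¹) • lg (r.ρ g) := by
    rw [← h, smul_smul, inv_mul_cancel₀ (by exact_mod_cast hn.ne'), one_smul]
  rw [h1]
  exact (malcev r).smul_mem _ (LieSubalgebra.subset_lieSpan ⟨g, rfl⟩)

end Pool.Agent.Results.MP_67ef3c_al.ComplexMalcevDeterminesRF
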